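import Pool.Agent.KLFin.Final.Words

/-!
The presented Hecke algebra: the elements `T_w`, spanning, comparison with a model
(MP_d9d356_co).
-/

open Equiv Finset

namespace KLFin.Final

variable {n : ℕ}

theorem gen_quad (i : Fin n) : gen i * gen i = (q - 1) • gen i + q • (1 : Hecke n) := by
  have := RingQuot.mkAlgHom_rel Lq (HeckeRel.quad i)
  rw [map_mul, map_add, map_smul, map_smul, map_one] at this
  exact this

theorem gen_braid {i j : Fin n} (h : (i : ℕ) + 1 = j) :
    gen i * gen j * gen i = gen j * gen i * gen j := by
  have := RingQuot.mkAlgHom_rel Lq (HeckeRel.braid i j h)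
  rw [map_mul, map_mul, map_mul, map_mul] at this
  exact this

theorem gen_comm {i j : Fin n} (h : (i : ℕ) + 1 < j) : gen i * gen j = gen j * gen i := by
  have := RingQuot.mkAlgHom_rel Lq (HeckeRel.comm i j h)
  rw [map_mul, map_mul] at this
  exact this

/-- `T_w` is the product along any reduced word. -/
theorem TT_eq {w : Perm (Fin (n + 1))} {l : List (Fin n)} (h : IsReduced w l) :
    TT w = (l.map gen).prod := by
  have hex : ∃ l : List (Fin n), IsReduced w l := ⟨l, h⟩
  unfold TT
  rw [dif_pos hex]
  exact matsumoto gen (fun i j h => gen_braid h) (fun i j h => gen_comm h) w _ _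
    hex.choose_spec h

theorem TT_one : TT (1 : Perm (Fin (n + 1))) = 1 := by
  have h : IsReduced (1 : Perm (Fin (n + 1))) [] := ⟨by simp, by simp [len_one]⟩
  rw [TT_eq h]; simp

theorem gen_mul_TT_up {w : Perm (Fin (n + 1))} {i : Fin n} (h : w⁻¹ i.castSucc < w⁻¹ i.succ) :
    gen i * TT w = TT (simple i * w) := by
  obtain ⟨l, hl⟩ := exists_isReduced w
  have h1 : IsReduced (simple i * w) (i :: l) := by
    apply IsReduced.consMk
    · rwa [← mul_assoc, simple_mul_self, one_mul]
    · rw [inv_simple_mul, inv_simple_mul, simple_right, simple_left]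
      exact h
  rw [TT_eq hl, TT_eq h1, List.map_cons, List.prod_cons]

theorem TT_simple (i : Fin n) : TT (simple i) = gen i := by
  have h := gen_mul_TT_up (w := 1) (i := i) (by
    rw [inv_one, Perm.one_apply, Perm.one_apply]; exact Fin.castSucc_lt_succ)
  rw [TT_one, mul_one, mul_one] at h
  exact h.symm

theorem gen_mul_TT_dn {w : Perm (Fin (n + 1))} {i : Fin n} (h : w⁻¹ i.succ < w⁻¹ i.castSucc) :
    gen i * TT w = (q - 1) • TT w + q • TT (simple i * w) := by
  have h1 : gen i * TT (simple i * w) = TT w := by
    rw [gen_mul_TT_up, ← mul_assoc, simple_mul_self, one_mul]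
    rw [inv_simple_mul, inv_simple_mul, simple_right, simple_left]
    exact h
  have h2 : gen i * TT w = gen i * gen i * TT (simple i * w) := by rw [mul_assoc, h1]
  rw [h2, gen_quad, add_mul, smul_mul_assoc, h1, smul_mul_assoc, one_mul]

/-- The elements `T_w` span the Hecke algebra. -/
theorem span_TT : Submodule.span Lq (Set.range (TT : Perm (Fin (n + 1)) → Hecke n)) = ⊤ := by
  set S := Submodule.span Lq (Set.range (TT : Perm (Fin (n + 1)) → Hecke n)) with hS
  have hmem : ∀ w : Perm (Fin (n + 1)), TT w ∈ S := fun w => Submodule.subset_span ⟨w, rfl⟩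
  have hgen : ∀ (i : Fin n), ∀ h ∈ S, gen i * h ∈ S := by
    intro i h hh
    induction hh using Submodule.span_induction with
    | mem x hx =>
      obtain ⟨w, rfl⟩ := hx
      rcases up_or_dn w⁻¹ i with h1 | h1
      · rw [gen_mul_TT_up h1]; exact hmem _
      · rw [gen_mul_TT_dn h1]
        exact S.add_mem (S.smul_mem _ (hmem _)) (S.smul_mem _ (hmem _))
    | zero => rw [mul_zero]; exact S.zero_mem
    | add x y _ _ hx hy => rw [mul_add]; exact S.add_mem hx hy
    | smul a x _ hx => rw [mul_smul_comm]; exact S.smul_mem _ hx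
  have key : ∀ y : FreeAlgebra Lq (Fin n), ∀ h ∈ S,
      RingQuot.mkAlgHom Lq (HeckeRel n) y * h ∈ S := by
    intro y
    induction y using FreeAlgebra.induction with
    | grade0 r =>
      intro h hh
      rw [AlgHom.commutes, ← Algebra.smul_def]
      exact S.smul_mem _ hh
    | grade1 i => intro h hh; exact hgen i h hh
    | mul a b ha hb =>
      intro h hh
      rw [map_mul, mul_assoc]
      exact ha _ (hb _ hh)
    | add a b ha hb =>
      intro h hh
      rw [map_add, add_mul]
      exact S.add_mem (ha _ hh) (hb _ hh)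
  rw [eq_top_iff]
  rintro x -
  obtain ⟨y, rfl⟩ := RingQuot.mkAlgHom_surjective Lq (HeckeRel n) x
  have := key y 1 (by rw [← TT_one]; exact hmem 1)
  rwa [mul_one] at this

/-- A model of the Hecke algebra of `S_{n+1}` with its standard basis and its involution. -/
structure HModel (n : ℕ) (H : Type*) [Ring H] [Algebra Lq H] where
  B : Perm (Fin (n + 1)) → H
  one : B 1 = 1
  up : ∀ (w : Perm (Fin (n + 1))) (i : Fin n), w⁻¹ i.castSucc < w⁻¹ i.succ →
    B (simple i) * B w = B (simple i * w)
  quad : ∀ i : Fin n, B (simple i) * B (simple i) = (q - 1) • B (simple i) + q • (1 : H)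
  li : LinearIndependent Lq B
  span : Submodule.span Lq (Set.range B) = ⊤
  bar : H →+* H
  bar_map : ∀ a : Lq, bar (algebraMap Lq H a) = algebraMap Lq H (LaurentPolynomial.invert (R := ℤ) a)
  bar_B : ∀ w, bar (B w) * B w⁻¹ = 1 ∧ B w⁻¹ * bar (B w) = 1

namespace HModel

variable {H : Type*} [Ring H] [Algebra Lq H] (D : HModel n H)

theorem word {w : Perm (Fin (n + 1))} {l : List (Fin n)} (h : IsReduced w l) :
    D.B w = (l.map (fun i => D.B (simple i))).prod := by
  induction l generalizing w with
  | nil =>
    have h1 : w = 1 := by rw [← h.1]; rfl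
    rw [h1, D.one]; rfl
  | cons i t ih =>
    obtain ⟨h1, h2⟩ := h.cons
    rw [List.map_cons, List.prod_cons, ← ih h1, D.up, ← mul_assoc, simple_mul_self, one_mul]
    rw [inv_simple_mul, inv_simple_mul, simple_right, simple_left]
    exact h2

theorem red_comm {i j : Fin n} (h : (i : ℕ) + 1 < j) :
    IsReduced (simple i * simple j) [i, j] ∧ IsReduced (simple i * simple j) [j, i] := by
  have hj : IsReduced (simple j) [j] := by
    refine ⟨by simp, ?_⟩
    have := len_left_up (w := (1 : Perm (Fin (n + 1)))) (i := j) (by
      rw [inv_one, Perm.one_apply, Perm.one_apply]; exact Fin.castSucc_lt_succ)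
    rw [mul_one, len_one] at this
    simp [this]
  have hi : IsReduced (simple i) [i] := by
    refine ⟨by simp, ?_⟩
    have := len_left_up (w := (1 : Perm (Fin (n + 1)))) (i := i) (by
      rw [inv_one, Perm.one_apply, Perm.one_apply]; exact Fin.castSucc_lt_succ)
    rw [mul_one, len_one] at this
    simp [this]
  constructor
  · apply IsReduced.consMk
    · rwa [← mul_assoc, simple_mul_self, one_mul]
    · rw [inv_simple_mul, inv_simple_mul, simple_right, simple_left, simple_inv]
      rw [simple_other' (i := j) (x := i.castSucc), simple_other' (i := j) (x := i.succ)]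
      · exact Fin.castSucc_lt_succ
      all_goals
        simp only [Fin.val_succ, Fin.val_castSucc]
        omega
  · rw [simple_comm h]
    apply IsReduced.consMk
    · rwa [← mul_assoc, simple_mul_self, one_mul]
    · rw [inv_simple_mul, inv_simple_mul, simple_right, simple_left, simple_inv]
      rw [simple_other' (i := i) (x := j.castSucc), simple_other' (i := i) (x := j.succ)]
      · exact Fin.castSucc_lt_succ
      all_goals
        simp only [Fin.val_succ, Fin.val_castSucc]
        omega

theorem red_braid {i j : Fin n} (h : (i : ℕ) + 1 = j) :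
    IsReduced (simple i * simple j * simple i) [i, j, i] ∧
      IsReduced (simple i * simple j * simple i) [j, i, j] := by
  have eji : j.castSucc = i.succ := by ext; simp; omega
  have s1 : simple i j.succ = j.succ := by
    apply simple_other' <;> simp only [Fin.val_succ] <;> omega
  have s2 : simple j i.castSucc = i.castSucc := by
    apply simple_other' <;> simp only [Fin.val_castSucc] <;> omega
  have k1 : simple j i.succ = j.succ := by rw [← eji, simple_left]
  have k2 : simple i j.castSucc = i.castSucc := by rw [eji, simple_right]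
  have hlt1 : i.castSucc < i.succ := Fin.castSucc_lt_succ
  have hlt2 : i.succ < j.succ := by rw [← eji]; exact Fin.castSucc_lt_succ
  have hj : IsReduced (simple j) [j] := by
    refine ⟨by simp, ?_⟩
    have := len_left_up (w := (1 : Perm (Fin (n + 1)))) (i := j) (by
      rw [inv_one, Perm.one_apply, Perm.one_apply]; exact Fin.castSucc_lt_succ)
    rw [mul_one, len_one] at this
    simp [this]
  have hi : IsReduced (simple i) [i] := by
    refine ⟨by simp, ?_⟩
    have := len_left_up (w := (1 : Perm (Fin (n + 1)))) (i := i) (by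
      rw [inv_one, Perm.one_apply, Perm.one_apply]; exact Fin.castSucc_lt_succ)
    rw [mul_one, len_one] at this
    simp [this]
  have hji : IsReduced (simple j * simple i) [j, i] := by
    apply IsReduced.consMk
    · rwa [← mul_assoc, simple_mul_self, one_mul]
    · rw [inv_simple_mul, inv_simple_mul, simple_right, simple_left, simple_inv, k2, s1]
      exact hlt1.trans hlt2
  have hij : IsReduced (simple i * simple j) [i, j] := by
    apply IsReduced.consMk
    · rwa [← mul_assoc, simple_mul_self, one_mul]
    · rw [inv_simple_mul, inv_simple_mul, simple_right, simple_left, simple_inv, k1, s2]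
      exact hlt1.trans hlt2
  constructor
  · rw [mul_assoc]
    apply IsReduced.consMk
    · rwa [← mul_assoc, simple_mul_self, one_mul]
    · simp only [inv_simple_mul, simple_right, simple_left, simple_inv, s2, k1, s1]
      exact hlt2
  · rw [simple_braid h, mul_assoc]
    apply IsReduced.consMk
    · rwa [← mul_assoc, simple_mul_self, one_mul]
    · simp only [inv_simple_mul, simple_right, simple_left, simple_inv, k2, s1, s2]
      rw [eji]
      exact hlt1

/-- The comparison homomorphism. -/
noncomputable def hom : Hecke n →ₐ[Lq] H :=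
  RingQuot.liftAlgHom Lq ⟨FreeAlgebra.lift Lq (fun i : Fin n => D.B (simple i)), by
    intro x y hxy
    induction hxy with
    | quad i =>
      rw [map_mul, map_add, map_smul, map_smul, map_one, FreeAlgebra.lift_ι_apply]
      exact D.quad i
    | braid i j h =>
      simp only [map_mul, FreeAlgebra.lift_ι_apply]
      have h1 := D.word (red_braid h).1
      have h2 := D.word (red_braid h).2
      rw [h1] at h2
      simpa [mul_assoc] using h2
    | comm i j h =>
      simp only [map_mul, FreeAlgebra.lift_ι_apply]
      have h1 := D.word (red_comm h).1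
      have h2 := D.word (red_comm h).2
      rw [h1] at h2
      simpa using h2⟩

theorem hom_gen (i : Fin n) : D.hom (gen i) = D.B (simple i) := by
  unfold hom gen
  rw [RingQuot.liftAlgHom_mkAlgHom_apply, FreeAlgebra.lift_ι_apply]

theorem hom_TT (w : Perm (Fin (n + 1))) : D.hom (TT w) = D.B w := by
  obtain ⟨l, hl⟩ := exists_isReduced w
  rw [TT_eq hl, D.word hl, map_list_prod, List.map_map]
  congr 1
  apply List.map_congr_left
  intro i _
  exact D.hom_gen i

theorem hom_bij : Function.Bijective D.hom := by
  have hB : (fun w => D.hom (TT w)) = D.B := funext D.hom_TT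
  constructor
  · rw [injective_iff_map_eq_zero]
    intro x hx
    have hx' : x ∈ Submodule.span Lq (Set.range (TT : Perm (Fin (n + 1)) → Hecke n)) := by
      rw [span_TT]; trivial
    rw [Submodule.mem_span_range_iff_exists_fun] at hx'
    obtain ⟨c, rfl⟩ := hx'
    rw [map_sum] at hx
    simp only [map_smul, D.hom_TT] at hx
    have := Fintype.linearIndependent_iff.mp D.li c hx
    simp [this]
  · intro y
    have hy : y ∈ Submodule.span Lq (Set.range D.B) := by rw [D.span]; trivial
    rw [Submodule.mem_span_range_iff_exists_fun] at hy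
    obtain ⟨c, rfl⟩ := hy
    refine ⟨∑ w, c w • TT w, ?_⟩
    rw [map_sum]
    simp only [map_smul, D.hom_TT]

/-- The Hecke algebra is isomorphic to its model. -/
noncomputable def equiv : Hecke n ≃ₐ[Lq] H := AlgEquiv.ofBijective D.hom D.hom_bij

theorem equiv_TT (w : Perm (Fin (n + 1))) : D.equiv (TT w) = D.B w := D.hom_TT w

/-- The involution of the presented algebra. -/
noncomputable def β : Hecke n →+* Hecke n :=
  (D.equiv.symm : H →+* Hecke n).comp (D.bar.comp (D.equiv : Hecke n →+* H))

theorem β_apply (x : Hecke n) : D.β x = D.equiv.symm (D.bar (D.equiv x)) := rfl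

theorem isBar_β : IsBar D.β := by
  constructor
  · intro a
    rw [β_apply, AlgEquiv.commutes, D.bar_map, AlgEquiv.commutes]
  · intro w
    have h1 : TT w⁻¹ = D.equiv.symm (D.B w⁻¹) := by
      rw [← D.equiv_TT, AlgEquiv.symm_apply_apply]
    rw [β_apply, D.equiv_TT, h1, ← map_mul, ← map_mul, (D.bar_B w).1, (D.bar_B w).2]
    exact ⟨map_one _, map_one _⟩

/-- Two ring endomorphisms with the properties of the involution agree. -/
theorem isBar_unique {β β' : Hecke n →+* Hecke n} (h : IsBar β) (h' : IsBar β') : β = β' := by
  have hT : ∀ w, β (TT w) = β' (TT w) := by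
    intro w
    calc β (TT w) = β (TT w) * (TT w⁻¹ * β' (TT w)) := by rw [(h'.2 w).2, mul_one]
      _ = β' (TT w) := by rw [← mul_assoc, (h.2 w).1, one_mul]
  apply RingHom.ext
  intro x
  have hx : x ∈ Submodule.span Lq (Set.range (TT : Perm (Fin (n + 1)) → Hecke n)) := by
    rw [span_TT]; trivial
  induction hx using Submodule.span_induction with
  | mem x hx => obtain ⟨w, rfl⟩ := hx; exact hT w
  | zero => rw [map_zero, map_zero]
  | add x y _ _ hx hy => rw [map_add, map_add, hx, hy]
  | smul a x _ hx => rw [Algebra.smul_def, map_mul, map_mul, h.1, h'.1, hx]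

/-- `C'_w` in the model. -/
noncomputable def CB (P : Perm (Fin (n + 1)) → Perm (Fin (n + 1)) → Polynomial ℤ)
    (w : Perm (Fin (n + 1))) : H :=
  (LaurentPolynomial.T (-(len w : ℤ)) : Lq) • ∑ x, (Polynomial.aeval q (P x w) : Lq) • D.B x

theorem equiv_CC (P : Perm (Fin (n + 1)) → Perm (Fin (n + 1)) → Polynomial ℤ)
    (w : Perm (Fin (n + 1))) : D.equiv (CC P w) = D.CB P w := by
  unfold CC CB
  rw [map_smul, map_sum]
  congr 1
  apply Finset.sum_congr rfl
  intro x _
  rw [map_smul, D.equiv_TT]

/-- Invariance under the involution can be tested in the model. -/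
theorem inv_iff (P : Perm (Fin (n + 1)) → Perm (Fin (n + 1)) → Polynomial ℤ) :
    (∃ β : Hecke n →+* Hecke n, IsBar β ∧ ∀ w, β (CC P w) = CC P w) ↔
      ∀ w, D.bar (D.CB P w) = D.CB P w := by
  constructor
  · rintro ⟨β, hβ, h⟩ w
    have h1 : β = D.β := isBar_unique hβ D.isBar_β
    have h2 := h w
    rw [h1, β_apply] at h2
    have h3 := congrArg D.equiv h2
    rw [AlgEquiv.apply_symm_apply, D.equiv_CC] at h3
    exact h3
  · intro h
    refine ⟨D.β, D.isBar_β, fun w => ?_⟩
    rw [β_apply, D.equiv_CC, h w, ← D.equiv_CC, AlgEquiv.symm_apply_apply]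

end HModel

end KLFin.Final
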