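import Mathlib

/-!
Kazhdan-Lusztig polynomials of the symmetric groups and pattern classes of permutations:
the definitions used in the statement of the final theorem (MP_d9d356_co).

Conventions. All permutations have size `n + 1` for some `n : ℕ`; `w : Equiv.Perm (Fin (n + 1))`
is written in one-line notation `w 0, w 1, …, w n`. The ground ring is
`ℤ[q^{1/2}, q^{-1/2}] = LaurentPolynomial ℤ`, with `q^{1/2} = LaurentPolynomial.T 1`.
-/

open Equiv Finset

namespace KLFin.Final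

/-- The ground ring `ℤ[q^{1/2}, q^{-1/2}]`. -/
abbrev Lq := LaurentPolynomial ℤ

/-- The element `q` of the ground ring (`q^{1/2}` is `LaurentPolynomial.T 1`). -/
noncomputable def q : Lq := LaurentPolynomial.T 2

/-- The relations of the Hecke algebra of the symmetric group `S_{n+1}` between the generators
`T_0, …, T_{n-1}`: `T_i² = (q - 1) T_i + q`, and the braid relations
`T_i T_{i+1} T_i = T_{i+1} T_i T_{i+1}` and `T_i T_j = T_j T_i` if `|i - j| > 1`. -/
inductive HeckeRel (n : ℕ) : FreeAlgebra Lq (Fin n) → FreeAlgebra Lq (Fin n) → Prop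
  | quad (i : Fin n) :
      HeckeRel n (FreeAlgebra.ι Lq i * FreeAlgebra.ι Lq i)
        ((q - 1) • FreeAlgebra.ι Lq i + q • 1)
  | braid (i j : Fin n) (h : (i : ℕ) + 1 = j) :
      HeckeRel n (FreeAlgebra.ι Lq i * FreeAlgebra.ι Lq j * FreeAlgebra.ι Lq i)
        (FreeAlgebra.ι Lq j * FreeAlgebra.ι Lq i * FreeAlgebra.ι Lq j)
  | comm (i j : Fin n) (h : (i : ℕ) + 1 < j) :
      HeckeRel n (FreeAlgebra.ι Lq i * FreeAlgebra.ι Lq j)
        (FreeAlgebra.ι Lq j * FreeAlgebra.ι Lq i)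

/-- The Hecke algebra of the symmetric group `S_{n+1}`. -/
abbrev Hecke (n : ℕ) := RingQuot (HeckeRel n)

/-- The generator `T_i` of the Hecke algebra. -/
noncomputable def gen {n : ℕ} (i : Fin n) : Hecke n :=
  RingQuot.mkAlgHom Lq (HeckeRel n) (FreeAlgebra.ι Lq i)

/-- The simple transposition `s_i` exchanging `i` and `i + 1`. -/
def simple {n : ℕ} (i : Fin n) : Perm (Fin (n + 1)) := swap i.castSucc i.succ

/-- The length `ℓ(w)`: the number of inversions of `w`. -/
def len {n : ℕ} (w : Perm (Fin n)) : ℕ :=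
  (univ.filter (fun p : Fin n × Fin n => p.1 < p.2 ∧ w p.2 < w p.1)).card

/-- The word `i_1 ⋯ i_k` is a reduced word of `w`: `w = s_{i_1} ⋯ s_{i_k}` and `k = ℓ(w)`. -/
def IsReduced {n : ℕ} (w : Perm (Fin (n + 1))) (l : List (Fin n)) : Prop :=
  (l.map simple).prod = w ∧ l.length = len w

open Classical in
/-- The element `T_w = T_{i_1} ⋯ T_{i_k}` of the Hecke algebra, for a reduced word `i_1 ⋯ i_k`
of `w`. (Reduced words exist, and the product does not depend on the word: see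
`exists_isReduced` and `TT_eq`.) -/
noncomputable def TT {n : ℕ} (w : Perm (Fin (n + 1))) : Hecke n :=
  if h : ∃ l : List (Fin n), IsReduced w l then (h.choose.map gen).prod else 0

/-- The Bruhat order: `x ≤ w` if there is a chain from `x` to `w` in which each step multiplies
by a transposition and increases the length. -/
def BruhatLE {n : ℕ} (x w : Perm (Fin n)) : Prop :=
  Relation.ReflTransGen (fun u v : Perm (Fin n) => (∃ a b, v = swap a b * u) ∧ len u < len v) x w

/-- `β` is the involution `T_w ↦ (T_{w⁻¹})⁻¹`, `q^{1/2} ↦ q^{-1/2}` of the Hecke algebra. -/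
def IsBar {n : ℕ} (β : Hecke n →+* Hecke n) : Prop :=
  (∀ a : Lq, β (algebraMap Lq (Hecke n) a) =
    algebraMap Lq (Hecke n) (LaurentPolynomial.invert (R := ℤ) a)) ∧
  ∀ w : Perm (Fin (n + 1)), β (TT w) * TT w⁻¹ = 1 ∧ TT w⁻¹ * β (TT w) = 1

/-- `C'_w = q^{-ℓ(w)/2} ∑_x P_{x,w}(q) T_x`. -/
noncomputable def CC {n : ℕ} (P : Perm (Fin (n + 1)) → Perm (Fin (n + 1)) → Polynomial ℤ)
    (w : Perm (Fin (n + 1))) : Hecke n :=
  (LaurentPolynomial.T (-(len w : ℤ)) : Lq) • ∑ x, (Polynomial.aeval q (P x w) : Lq) • TT x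

/-- `P x w`, `x, w ∈ S_{n+1}`, are the Kazhdan-Lusztig polynomials `P_{x,w}`: `P_{w,w} = 1`,
`P_{x,w} = 0` unless `x ≤ w`, `deg P_{x,w} ≤ (ℓ(w) - ℓ(x) - 1)/2` for `x < w`, and all the
elements `C'_w` are fixed by the involution. -/
structure IsKL {n : ℕ} (P : Perm (Fin (n + 1)) → Perm (Fin (n + 1)) → Polynomial ℤ) : Prop where
  diag : ∀ w, P w w = 1
  bruhat : ∀ x w, ¬ BruhatLE x w → P x w = 0
  deg : ∀ x w, BruhatLE x w → x ≠ w → len x + 2 * (P x w).natDegree + 1 ≤ len w
  inv : ∃ β : Hecke n →+* Hecke n, IsBar β ∧ ∀ w, β (CC P w) = CC P w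

/-- The permutations of all finite sizes `n + 1 ≥ 1`. -/
abbrev AllPerm := Σ n : ℕ, Perm (Fin (n + 1))

/-- `w` contains the pattern `v`: `fl(w_{i_1} ⋯ w_{i_k}) = v` for some `i_1 < ⋯ < i_k`, that is,
`v_a < v_b` if and only if `w_{i_a} < w_{i_b}`. -/
def Contains {n k : ℕ} (w : Perm (Fin n)) (v : Perm (Fin k)) : Prop :=
  ∃ e : Fin k ↪o Fin n, ∀ a b, v a < v b ↔ w (e a) < w (e b)

/-- `Av(B)`: the permutations which avoid every element of `B`. -/
def Av (B : Set AllPerm) : Set AllPerm := {w | ∀ v ∈ B, ¬ Contains w.2 v.2}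

/-- The class `C` is finitely based. -/
def FinitelyBased (C : Set AllPerm) : Prop := ∃ B : Set AllPerm, B.Finite ∧ C = Av B

/-- The class `KL_m` of the permutations `w` with `P_{id,w}(1) ≤ m`, for given
Kazhdan-Lusztig polynomials. -/
def KLClass (P : (n : ℕ) → Perm (Fin (n + 1)) → Perm (Fin (n + 1)) → Polynomial ℤ) (m : ℕ) :
    Set AllPerm := {w | (P w.1 1 w.2).eval 1 ≤ (m : ℤ)}

end KLFin.Final
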