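import Pool.Agent.KLFin.Final.Model
import Pool.Agent.KLFin.BIface

/-!
Kazhdan-Lusztig polynomials in the presented Hecke algebra of `S_{n+1}` and in the model
(MP_d9d356_co).
-/

open Equiv Finset

namespace KLFin.Final

variable {n : ℕ}

theorem inW0 (w : Pm n) : InW (κ0 n) w := fun _ => rfl

theorem len_eq (w : Pm n) : KLFin.len (κ0 n) w = len w := by
  rw [← len_inv w]
  unfold KLFin.len len
  congr 1
  apply Finset.filter_congr
  intro p _
  constructor
  · rintro ⟨h1, _, h2⟩; exact ⟨h1, h2⟩
  · rintro ⟨h1, h2⟩; exact ⟨h1, rfl, h2⟩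

/-- the Young subgroup for the constant function is the full symmetric group -/
def phi (n : ℕ) : Perm (Fin (n + 1)) ≃* Yg (κ0 (n + 1)) where
  toFun w := ⟨w, inW0 w⟩
  invFun g := g.1
  left_inv _ := rfl
  right_inv _ := rfl
  map_mul' _ _ := rfl

theorem smp_simple (i : Fin n) : Smp (κ0 (n + 1)) (i.castSucc, i.succ) := by
  refine ⟨Fin.castSucc_lt_succ, rfl, ?_⟩
  intro k h1 h2
  exfalso
  rw [Fin.lt_def, Fin.val_castSucc] at h1
  rw [Fin.lt_def, Fin.val_succ] at h2
  omega

theorem phi_simple (i : Fin n) : phi n (simple i) ∈ (YD (κ0 (n + 1))).S :=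
  ⟨(i.castSucc, i.succ), smp_simple i, rfl⟩

/-- The model of the Hecke algebra of `S_{n+1}`. -/
noncomputable def model (n : ℕ) : HModel n (HK (κ0 (n + 1))) :=
  ofDatum (YD (κ0 (n + 1))) (phi n) phi_simple (fun w => len_eq w)

theorem model_B (w : Perm (Fin (n + 1))) : (model n).B w = KLFin.TT (κ0 (n + 1)) w :=
  (TT_of (κ0 (n + 1)) (inW0 w)).symm

theorem qe_eq (p : Polynomial ℤ) : qe p = Polynomial.aeval q p := rfl

theorem model_CB (P : Perm (Fin (n + 1)) → Perm (Fin (n + 1)) → Polynomial ℤ)
    (w : Perm (Fin (n + 1))) :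
    (model n).CB P w = elH (κ0 (n + 1)) (KLFin.len (κ0 (n + 1)) w) (fun x => P x w) := by
  unfold HModel.CB elH
  rw [len_eq]
  congr 1
  apply Finset.sum_congr rfl
  intro x _
  rw [model_B, qe_eq]

theorem model_bar (x : HK (κ0 (n + 1))) : (model n).bar x = bar (YD (κ0 (n + 1))) x := rfl

theorem up_iff (u v : Pm n) :
    ((∃ a b, v = swap a b * u) ∧ len u < len v) ↔ Up (κ0 n) u v := by
  constructor
  · rintro ⟨⟨a, b, rfl⟩, hlt⟩
    have key : ∀ a b : Fin n, a < b → len u < len (swap a b * u) →
        Up (κ0 n) u (swap a b * u) := by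
      intro a b hab hlt
      rcases KLFin.up_or_dn (κ := κ0 n) u hab rfl with h | h
      · exact h
      · have := h.len_lt
        rw [len_eq, len_eq] at this
        omega
    rcases lt_trichotomy a b with h | h | h
    · exact key a b h hlt
    · subst h
      rw [swap_self] at hlt
      exact absurd hlt (lt_irrefl _)
    · rw [swap_comm] at hlt ⊢
      exact key b a h hlt
  · intro h
    refine ⟨?_, ?_⟩
    · obtain ⟨a, b, _, _, _, h⟩ := h
      exact ⟨a, b, h⟩
    · have := h.len_lt
      rwa [len_eq, len_eq] at this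

theorem bruhat_iff (x w : Pm n) : BruhatLE x w ↔ x ∈ Le (Up (κ0 n)) w := by
  have h : (fun u v : Pm n => (∃ a b, v = swap a b * u) ∧ len u < len v) = Up (κ0 n) := by
    funext u v
    exact propext (up_iff u v)
  unfold BruhatLE Le
  rw [h]
  rfl

theorem bruhat_len {x w : Pm n} (h : BruhatLE x w) : x = w ∨ len x < len w := by
  induction h with
  | refl => exact Or.inl rfl
  | tail _ h2 ih =>
    right
    rcases ih with h | h
    · rw [h]; exact h2.2
    · exact h.trans h2.2

/-- The two definitions of Kazhdan-Lusztig polynomials agree. -/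
theorem isKL_iff (P : Perm (Fin (n + 1)) → Perm (Fin (n + 1)) → Polynomial ℤ) :
    IsKL P ↔ ∀ w, KLFin.IsKL (κ0 (n + 1)) w (fun x => P x w) := by
  have hinv : (∃ β : Hecke n →+* Hecke n, IsBar β ∧ ∀ w, β (CC P w) = CC P w) ↔
      ∀ w, BI (κ0 (n + 1)) (KLFin.len (κ0 (n + 1)) w) (fun x => P x w) := by
    rw [(model n).inv_iff P]
    apply forall_congr'
    intro w
    rw [model_CB, model_bar]
    rfl
  constructor
  · intro h w
    refine ⟨hinv.mp h.inv w, h.diag w, ?_, ?_⟩
    · intro y hy hne
      have hle : BruhatLE y w := by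
        by_contra hcon
        exact hne (h.bruhat y w hcon)
      rw [len_eq, len_eq]
      exact h.deg y w hle hy
    · intro y hy
      apply h.bruhat
      rw [bruhat_iff]
      exact hy
  · intro h
    refine ⟨fun w => (h w).one, ?_, ?_, hinv.mpr fun w => (h w).bi⟩
    · intro x w hx
      apply (h w).supp x
      rw [← bruhat_iff]
      exact hx
    · intro x w hle hne
      by_cases h0 : P x w = 0
      · have h1 : len x < len w := (bruhat_len hle).resolve_left hne
        rw [h0, Polynomial.natDegree_zero]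
        omega
      · have := (h w).deg x hne h0
        rw [len_eq, len_eq] at this
        exact this

/-- Uniqueness of the Kazhdan-Lusztig polynomials. -/
theorem isKL_unique {P P' : Perm (Fin (n + 1)) → Perm (Fin (n + 1)) → Polynomial ℤ}
    (h : IsKL P) (h' : IsKL P') : P' = P := by
  rw [isKL_iff] at h h'
  funext x w
  exact congrFun (KLFin.IsKL.unique (inW0 w) (h' w) (h w)) x

/-- Kazhdan-Lusztig polynomials from families of natural number polynomials. -/
theorem isKL_of_KLF {Q : (w : Perm (Fin (n + 1))) → Pm (n + 1) → Polynomial ℕ}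
    (hQ : ∀ w, KLF (κ0 (n + 1)) w (Q w)) :
    IsKL (fun x w => (Q w x).map (Nat.castRingHom ℤ)) := by
  rw [isKL_iff]
  intro w
  exact (hQ w).isKL

end KLFin.Final
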