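import Pool.Agent.KLFin.Final.Link
import Pool.Agent.KLFin.A8

/-!
The final theorem from the existence of the Kazhdan-Lusztig families and from the properties
`GlobalN` of `N(w) = P_{id,w}(1)` (MP_d9d356_co).
-/

open Equiv Finset

namespace KLFin.Final

theorem eval_map_cast (p : Polynomial ℕ) :
    (p.map (Nat.castRingHom ℤ)).eval 1 = ((p.eval 1 : ℕ) : ℤ) := by
  rw [Polynomial.eval_map, Polynomial.eval₂_eq_sum, Polynomial.eval_eq_sum]
  simp [Polynomial.sum]

/-- The classes `KL_m` are finitely based. -/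
theorem main_of {Q : (n : ℕ) → (w : Pm n) → Pm n → Polynomial ℕ}
    (hQ : ∀ n w, KLF (κ0 n) w (Q n w)) (hN : GlobalN (fun n w => (Q n w 1).eval 1)) :
    ∃ P : (n : ℕ) → Perm (Fin (n + 1)) → Perm (Fin (n + 1)) → Polynomial ℤ,
      (∀ n, IsKL (P n) ∧ ∀ P', IsKL P' → P' = P n) ∧
        ∀ m : ℕ, 1 ≤ m → FinitelyBased (KLClass P m) := by
  refine ⟨fun n x w => (Q (n + 1) w x).map (Nat.castRingHom ℤ), fun n => ?_, fun m hm => ?_⟩
  · have h := isKL_of_KLF (Q := fun w => Q (n + 1) w) (fun w => hQ (n + 1) w)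
    exact ⟨h, fun P' hP' => isKL_unique h hP'⟩
  · obtain ⟨B, hB, hBm⟩ := KLFin.finitely_based hN m hm
    have hsz : ∀ v ∈ B, v.1 ≠ 0 := by
      rintro ⟨k, v⟩ hv hk
      simp only at hk
      subst hk
      have h1 : (Q 1 1 1).eval 1 ≤ m := by
        rw [(hQ 1 1).one, Polynomial.eval_one]
        exact hm
      have h2 := (hBm 1 1).mp h1 _ hv
      apply h2
      exact ⟨⟨⟨fun i => i.elim0, fun i => i.elim0⟩, fun {i} => i.elim0⟩, fun i => i.elim0⟩
    have hinj : Function.Injective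
        (fun v : AllPerm => (⟨v.1 + 1, v.2⟩ : (k : ℕ) × Equiv.Perm (Fin k))) := by
      rintro ⟨k, v⟩ ⟨l, u⟩ h
      simp only [Sigma.mk.injEq] at h
      obtain ⟨h1, h2⟩ := h
      have h3 : k = l := by omega
      subst h3
      rw [eq_of_heq h2]
    refine ⟨(fun v : AllPerm => (⟨v.1 + 1, v.2⟩ : (k : ℕ) × Equiv.Perm (Fin k))) ⁻¹' B,
      hB.preimage hinj.injOn, ?_⟩
    ext ⟨n, w⟩
    have h1 : (⟨n, w⟩ : AllPerm) ∈
        KLClass (fun n x w => (Q (n + 1) w x).map (Nat.castRingHom ℤ)) m ↔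
        (Q (n + 1) w 1).eval 1 ≤ m := by
      change ((Q (n + 1) w 1).map (Nat.castRingHom ℤ)).eval 1 ≤ (m : ℤ) ↔ _
      rw [eval_map_cast]
      exact Nat.cast_le
    rw [h1, hBm (n + 1) w]
    constructor
    · intro h v hv
      exact h _ hv
    · rintro h ⟨k, v⟩ hv
      obtain ⟨k', rfl⟩ := Nat.exists_eq_succ_of_ne_zero (hsz _ hv)
      exact h ⟨k', v⟩ hv

end KLFin.Final
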