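import Pool.Agent.KLFin.Final.Alg
import Pool.Agent.KLFin.BBar

/-!
The model of the Hecke algebra of `S_{n+1}` given by a datum (MP_d9d356_co).
-/

open Equiv Finset

namespace KLFin.Final

variable {n : ℕ}

section basis

variable {G : Type} [Group G] [Fintype G] [DecidableEq G] (D : HDatum G)

/-- the standard basis of the Hecke algebra of a datum -/
noncomputable def bas : Module.Basis G KLFin.Av (Hk D) := Module.Basis.ofEquivFun (ev D)

theorem bas_apply (g : G) : bas D g = Tb D g := by
  rw [bas, Module.Basis.coe_ofEquivFun]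
  rfl

theorem Tb_li : LinearIndependent KLFin.Av (Tb D) := by
  have h : (bas D : G → Hk D) = Tb D := funext (bas_apply D)
  rw [← h]
  exact (bas D).linearIndependent

theorem Tb_span : Submodule.span KLFin.Av (Set.range (Tb D)) = ⊤ := by
  have h : (bas D : G → Hk D) = Tb D := funext (bas_apply D)
  rw [← h]
  exact (bas D).span_eq

theorem ring_inv_mul {R : Type*} [Semiring R] {a : R} (h : IsUnit a) :
    Ring.inverse a * a = 1 ∧ a * Ring.inverse a = 1 :=
  ⟨Ring.inverse_mul_cancel a h, Ring.mul_inverse_cancel a h⟩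

theorem bar_Tb_mul (g : G) :
    bar D (Tb D g) * Tb D g⁻¹ = 1 ∧ Tb D g⁻¹ * bar D (Tb D g) = 1 := by
  rw [bar_Tb, Ti]
  exact ring_inv_mul (isUnit_Tb D _)

theorem Tb_range_comp (φ : Perm (Fin (n + 1)) ≃* G) :
    Set.range (fun w => Tb D (φ w)) = Set.range (Tb D) := by
  ext x
  constructor
  · rintro ⟨w, rfl⟩
    exact ⟨φ w, rfl⟩
  · rintro ⟨g, rfl⟩
    exact ⟨φ.symm g, by simp only [MulEquiv.apply_symm_apply]⟩

end basis

/-- The model obtained from a datum on a group isomorphic to `S_{n+1}`. -/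
noncomputable def ofDatum {G : Type} [Group G] [Fintype G] [DecidableEq G] (D : HDatum G)
    (φ : Perm (Fin (n + 1)) ≃* G) (hS : ∀ i : Fin n, φ (simple i) ∈ D.S)
    (hl : ∀ w, D.ℓ (φ w) = len w) : HModel n (Hk D) where
  B w := Tb D (φ w)
  one := by rw [map_one, Tb_one]
  up w i h := by
    rw [map_mul]
    apply Ts_mul_up D (hS i)
    rw [← map_mul, hl, hl, len_left_up h]
    exact Nat.lt_succ_self _
  quad i := Ts_sq D (hS i)
  li := (Tb_li D).comp φ φ.injective
  span := by
    rw [Tb_range_comp D φ]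
    exact Tb_span D
  bar := bar D
  bar_map a := bar_algebraMap D a
  bar_B w := by
    rw [map_inv]
    exact bar_Tb_mul D (φ w)

end KLFin.Final
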