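import Pool.Agent.KLFin.Final.Defs

/-!
Reduced words in the symmetric group and Matsumoto's theorem (MP_d9d356_co).
-/

open Equiv Finset

namespace KLFin.Final

variable {n : ℕ}

theorem papp (w : Perm (Fin n)) (x : Fin n) : w (w⁻¹ x) = x := w.apply_symm_apply x
theorem pinv (w : Perm (Fin n)) (x : Fin n) : w⁻¹ (w x) = x := w.symm_apply_apply x

theorem len_inv (w : Perm (Fin n)) : len w⁻¹ = len w := by
  unfold len
  apply Finset.card_bij' (fun p _ => (w⁻¹ p.2, w⁻¹ p.1)) (fun p _ => (w p.2, w p.1))
  · rintro ⟨a, b⟩ h
    simp only [mem_filter, mem_univ, true_and] at h ⊢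
    rw [papp, papp]
    exact ⟨h.2, h.1⟩
  · rintro ⟨a, b⟩ h
    simp only [mem_filter, mem_univ, true_and] at h ⊢
    rw [pinv, pinv]
    exact ⟨h.2, h.1⟩
  · rintro ⟨a, b⟩ _
    simp only [papp]
  · rintro ⟨a, b⟩ _
    simp only [pinv]

theorem len_one : len (1 : Perm (Fin n)) = 0 := by
  unfold len
  rw [Finset.card_eq_zero, Finset.filter_eq_empty_iff]
  rintro ⟨a, b⟩ - ⟨h1, h2⟩
  exact absurd h1 (not_lt.mpr h2.le)

theorem simple_left (i : Fin n) : simple i i.castSucc = i.succ := swap_apply_left _ _
theorem simple_right (i : Fin n) : simple i i.succ = i.castSucc := swap_apply_right _ _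
theorem simple_other {i : Fin n} {x : Fin (n + 1)} (h1 : x ≠ i.castSucc) (h2 : x ≠ i.succ) :
    simple i x = x := swap_apply_of_ne_of_ne h1 h2
theorem simple_other' {i : Fin n} {x : Fin (n + 1)} (h1 : (x : ℕ) ≠ i) (h2 : (x : ℕ) ≠ i + 1) :
    simple i x = x :=
  simple_other (fun h => h1 (by rw [h]; rfl)) (fun h => h2 (by rw [h]; rfl))
theorem simple_mul_self (i : Fin n) : simple i * simple i = 1 := swap_mul_self _ _
theorem simple_inv (i : Fin n) : (simple i)⁻¹ = simple i := swap_inv _ _

theorem simple_simple (i : Fin n) (x : Fin (n + 1)) : simple i (simple i x) = x := by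
  rw [← Perm.mul_apply, simple_mul_self]; rfl

theorem simple_val (i : Fin n) (x : Fin (n + 1)) :
    ((simple i x : Fin (n + 1)) : ℕ) =
      if (x : ℕ) = i then (i : ℕ) + 1 else if (x : ℕ) = i + 1 then (i : ℕ) else x := by
  by_cases h1 : x = i.castSucc
  · subst h1; rw [simple_left]; simp
  · by_cases h2 : x = i.succ
    · subst h2; rw [simple_right]; simp
    · rw [simple_other h1 h2, if_neg, if_neg]
      · intro h; exact h2 (Fin.ext h)
      · intro h; exact h1 (Fin.ext h)

/-- the pairs other than `(i, i+1)` keep their order -/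
theorem simple_lt {i : Fin n} {a b : Fin (n + 1)} (hab : a < b)
    (h : ¬ (a = i.castSucc ∧ b = i.succ)) : simple i a < simple i b := by
  rw [Fin.lt_def, simple_val, simple_val]
  have h1 : ¬ ((a : ℕ) = i ∧ (b : ℕ) = i + 1) := by
    rintro ⟨h1, h2⟩; exact h ⟨Fin.ext h1, Fin.ext h2⟩
  have h2 : (a : ℕ) < b := hab
  split_ifs <;> omega

theorem len_mul_up {w : Perm (Fin (n + 1))} {i : Fin n} (h : w i.castSucc < w i.succ) :
    len (w * simple i) = len w + 1 := by
  unfold len
  have hmem : (i.castSucc, i.succ) ∈ univ.filter (fun p : Fin (n + 1) × Fin (n + 1) =>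
      p.1 < p.2 ∧ (w * simple i) p.2 < (w * simple i) p.1) := by
    refine mem_filter.mpr ⟨mem_univ _, Fin.castSucc_lt_succ, ?_⟩
    rw [Perm.mul_apply, Perm.mul_apply, simple_left, simple_right]
    exact h
  rw [← Finset.card_erase_add_one hmem]
  congr 1
  apply Finset.card_bij' (fun p _ => (simple i p.1, simple i p.2))
    (fun p _ => (simple i p.1, simple i p.2))
  · rintro ⟨a, b⟩ hab
    rw [mem_erase, mem_filter] at hab
    obtain ⟨hne, -, hlt, hw⟩ := hab
    refine mem_filter.mpr ⟨mem_univ _, simple_lt hlt ?_, hw⟩
    rintro ⟨h1, h2⟩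
    exact hne (Prod.ext h1 h2)
  · rintro ⟨a, b⟩ hab
    rw [mem_filter] at hab
    obtain ⟨-, hlt, hw⟩ := hab
    have hne : ¬ (a = i.castSucc ∧ b = i.succ) := by
      rintro ⟨h1, h2⟩
      have hw' : w b < w a := hw
      rw [h1, h2] at hw'
      exact absurd h (not_lt.mpr hw'.le)
    refine mem_erase.mpr ⟨?_, mem_filter.mpr ⟨mem_univ _, simple_lt hlt hne, ?_⟩⟩
    · intro h3
      have h1 : simple i a = i.castSucc := congrArg Prod.fst h3
      have h2 : simple i b = i.succ := congrArg Prod.snd h3
      have e1 : a = i.succ := by rw [← simple_simple i a, h1, simple_left]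
      have e2 : b = i.castSucc := by rw [← simple_simple i b, h2, simple_right]
      have hlt' : a < b := hlt
      rw [e1, e2] at hlt'
      exact absurd hlt' (not_lt.mpr Fin.castSucc_lt_succ.le)
    · change (w * simple i) (simple i b) < (w * simple i) (simple i a)
      rw [Perm.mul_apply, Perm.mul_apply, simple_simple, simple_simple]
      exact hw
  · rintro ⟨a, b⟩ _
    simp only [simple_simple]
  · rintro ⟨a, b⟩ _
    simp only [simple_simple]

theorem len_mul_dn {w : Perm (Fin (n + 1))} {i : Fin n} (h : w i.succ < w i.castSucc) :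
    len (w * simple i) + 1 = len w := by
  have h1 : len (w * simple i * simple i) = len (w * simple i) + 1 := by
    apply len_mul_up
    rw [Perm.mul_apply, Perm.mul_apply, simple_left, simple_right]
    exact h
  rw [mul_assoc, simple_mul_self, mul_one] at h1
  exact h1.symm

theorem len_simple_mul (w : Perm (Fin (n + 1))) (i : Fin n) :
    len (simple i * w) = len (w⁻¹ * simple i) := by
  rw [← len_inv (simple i * w), mul_inv_rev, simple_inv]

theorem len_left_up {w : Perm (Fin (n + 1))} {i : Fin n} (h : w⁻¹ i.castSucc < w⁻¹ i.succ) :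
    len (simple i * w) = len w + 1 := by
  rw [len_simple_mul, len_mul_up h, len_inv]

theorem len_left_dn {w : Perm (Fin (n + 1))} {i : Fin n} (h : w⁻¹ i.succ < w⁻¹ i.castSucc) :
    len (simple i * w) + 1 = len w := by
  rw [len_simple_mul, len_mul_dn h, len_inv]

theorem up_or_dn (w : Perm (Fin (n + 1))) (i : Fin n) :
    w i.castSucc < w i.succ ∨ w i.succ < w i.castSucc := by
  rcases lt_trichotomy (w i.castSucc) (w i.succ) with h | h | h
  · exact Or.inl h
  · exact absurd (w.injective h) (Fin.castSucc_lt_succ).ne
  · exact Or.inr h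

theorem exists_dn {w : Perm (Fin (n + 1))} (hw : w ≠ 1) : ∃ i : Fin n, w i.succ < w i.castSucc := by
  by_contra hcon
  push Not at hcon
  apply hw
  have hmono : StrictMono w := by
    rw [Fin.strictMono_iff_lt_succ]
    intro i
    exact lt_of_le_of_ne (hcon i) (fun h => (Fin.castSucc_lt_succ).ne (w.injective h))
  let φ : Fin (n + 1) ≃o Fin (n + 1) := StrictMono.orderIsoOfSurjective w hmono w.surjective
  have h1 : φ = OrderIso.refl _ := Subsingleton.elim _ _
  ext x
  have : φ x = w x := rfl
  rw [← this, h1]; rfl

theorem exists_left_dn {w : Perm (Fin (n + 1))} (hw : w ≠ 1) :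
    ∃ i : Fin n, w⁻¹ i.succ < w⁻¹ i.castSucc :=
  exists_dn (fun h => hw (inv_eq_one.mp h))

theorem len_eq_zero {w : Perm (Fin (n + 1))} : len w = 0 ↔ w = 1 := by
  constructor
  · intro h
    by_contra hw
    obtain ⟨i, hi⟩ := exists_dn hw
    have := len_mul_dn hi
    omega
  · rintro rfl; exact len_one

theorem exists_isReduced (w : Perm (Fin (n + 1))) : ∃ l : List (Fin n), IsReduced w l := by
  have key : ∀ k, ∀ w : Perm (Fin (n + 1)), len w = k → ∃ l : List (Fin n), IsReduced w l := by
    intro k
    induction k with
    | zero =>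
      intro w hw
      rw [len_eq_zero] at hw
      subst hw
      exact ⟨[], by simp, by simp [len_one]⟩
    | succ k ih =>
      intro w hw
      have hw1 : w ≠ 1 := by rintro rfl; rw [len_one] at hw; omega
      obtain ⟨i, hi⟩ := exists_left_dn hw1
      have h1 := len_left_dn hi
      obtain ⟨l, hl1, hl2⟩ := ih (simple i * w) (by omega)
      refine ⟨i :: l, ?_, ?_⟩
      · rw [List.map_cons, List.prod_cons, hl1, ← mul_assoc, simple_mul_self, one_mul]
      · rw [List.length_cons, hl2, h1]
  exact key _ w rfl

/-- The first letter of a reduced word is a left descent, and the rest is reduced. -/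
theorem IsReduced.cons {w : Perm (Fin (n + 1))} {i : Fin n} {t : List (Fin n)}
    (h : IsReduced w (i :: t)) : IsReduced (simple i * w) t ∧ w⁻¹ i.succ < w⁻¹ i.castSucc := by
  have hle : ∀ (l : List (Fin n)), len (l.map simple).prod ≤ l.length := by
    intro l
    induction l with
    | nil => simp [len_one]
    | cons j l ih =>
      rw [List.map_cons, List.prod_cons, List.length_cons]
      rcases up_or_dn ((l.map simple).prod)⁻¹ j with h1 | h1
      · rw [len_left_up h1]; omega
      · have := len_left_dn h1; omega
  obtain ⟨h1, h2⟩ := h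
  rw [List.map_cons, List.prod_cons] at h1
  rw [List.length_cons] at h2
  have h3 : simple i * w = (t.map simple).prod := by
    rw [← h1, ← mul_assoc, simple_mul_self, one_mul]
  have h4 := hle t
  rw [← h3] at h4
  rcases up_or_dn w⁻¹ i with h5 | h5
  · have := len_left_up h5
    omega
  · have := len_left_dn h5
    exact ⟨⟨h3.symm, by omega⟩, h5⟩

theorem IsReduced.consMk {w : Perm (Fin (n + 1))} {i : Fin n} {t : List (Fin n)}
    (h : IsReduced (simple i * w) t) (hd : w⁻¹ i.succ < w⁻¹ i.castSucc) :
    IsReduced w (i :: t) := by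
  obtain ⟨h1, h2⟩ := h
  refine ⟨?_, ?_⟩
  · rw [List.map_cons, List.prod_cons, h1, ← mul_assoc, simple_mul_self, one_mul]
  · rw [List.length_cons, h2, len_left_dn hd]

theorem inv_simple_mul (w : Perm (Fin (n + 1))) (i : Fin n) (x : Fin (n + 1)) :
    (simple i * w)⁻¹ x = w⁻¹ (simple i x) := by
  rw [mul_inv_rev, simple_inv, Perm.mul_apply]

theorem simple_comm {i j : Fin n} (h : (i : ℕ) + 1 < j) : simple i * simple j = simple j * simple i := by
  ext x
  rw [Perm.mul_apply, Perm.mul_apply, simple_val, simple_val, simple_val, simple_val]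
  split_ifs <;> omega

theorem simple_braid {i j : Fin n} (h : (i : ℕ) + 1 = j) :
    simple i * simple j * simple i = simple j * simple i * simple j := by
  have eji : j.castSucc = i.succ := by ext; simp; omega
  have h1 : j.succ ≠ i.succ := by intro h'; have := congrArg Fin.val h'; simp at this; omega
  have h2 : j.succ ≠ i.castSucc := by intro h'; have := congrArg Fin.val h'; simp at this; omega
  have h3 : i.castSucc ≠ i.succ := (Fin.castSucc_lt_succ).ne
  have e1 : swap i.succ i.castSucc * swap j.succ i.succ * swap i.succ i.castSucc =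
      swap i.castSucc j.succ := swap_mul_swap_mul_swap h1 h2
  have e2 : swap i.succ j.succ * swap i.castSucc i.succ * swap i.succ j.succ =
      swap j.succ i.castSucc := swap_mul_swap_mul_swap h3 h2.symm
  unfold simple
  rw [eji, e2, swap_comm i.castSucc i.succ, swap_comm i.succ j.succ, e1, swap_comm]

section Matsumoto

variable {M : Type*} [Monoid M]

/-- Auxiliary statement for commuting letters. -/
theorem mats_comm (g : Fin n → M) {w : Perm (Fin (n + 1))} {i j : Fin n} (hij : (i : ℕ) + 1 < j)
    (hg : g i * g j = g j * g i)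
    (ih : ∀ u : Perm (Fin (n + 1)), len u < len w → ∀ l l' : List (Fin n), IsReduced u l →
      IsReduced u l' → (l.map g).prod = (l'.map g).prod)
    {t t' : List (Fin n)} (h : IsReduced w (i :: t)) (h' : IsReduced w (j :: t')) :
    ((i :: t).map g).prod = ((j :: t').map g).prod := by
  obtain ⟨ht, hi⟩ := h.cons
  obtain ⟨ht', hj⟩ := h'.cons
  obtain ⟨r, hr⟩ := exists_isReduced (simple j * (simple i * w))
  have hji : (simple i * w)⁻¹ j.succ < (simple i * w)⁻¹ j.castSucc := by
    rw [inv_simple_mul, inv_simple_mul, simple_other' (i := i) (x := j.succ),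
      simple_other' (i := i) (x := j.castSucc)]
    · exact hj
    all_goals
      simp only [Fin.val_succ, Fin.val_castSucc]
      omega
  have hij' : (simple j * w)⁻¹ i.succ < (simple j * w)⁻¹ i.castSucc := by
    rw [inv_simple_mul, inv_simple_mul, simple_other' (i := j) (x := i.succ),
      simple_other' (i := j) (x := i.castSucc)]
    · exact hi
    all_goals
      simp only [Fin.val_succ, Fin.val_castSucc]
      omega
  have e : simple j * (simple i * w) = simple i * (simple j * w) := by
    rw [← mul_assoc, ← simple_comm hij, mul_assoc]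
  have h1 : IsReduced (simple i * w) (j :: r) := hr.consMk hji
  have h2 : IsReduced (simple j * w) (i :: r) := by
    rw [e] at hr
    exact hr.consMk hij'
  have l1 := len_left_dn hi
  have l2 := len_left_dn hj
  have e1 := ih _ (by omega) _ _ ht h1
  have e2 := ih _ (by omega) _ _ ht' h2
  rw [List.map_cons, List.map_cons, List.prod_cons, List.prod_cons, e1, e2, List.map_cons,
    List.map_cons, List.prod_cons, List.prod_cons, ← mul_assoc, hg, mul_assoc]

/-- Auxiliary statement for neighbouring letters. -/
theorem mats_braid (g : Fin n → M) {w : Perm (Fin (n + 1))} {i j : Fin n} (hij : (i : ℕ) + 1 = j)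
    (hg : g i * g j * g i = g j * g i * g j)
    (ih : ∀ u : Perm (Fin (n + 1)), len u < len w → ∀ l l' : List (Fin n), IsReduced u l →
      IsReduced u l' → (l.map g).prod = (l'.map g).prod)
    {t t' : List (Fin n)} (h : IsReduced w (i :: t)) (h' : IsReduced w (j :: t')) :
    ((i :: t).map g).prod = ((j :: t').map g).prod := by
  obtain ⟨ht, hi⟩ := h.cons
  obtain ⟨ht', hj⟩ := h'.cons
  have eji : j.castSucc = i.succ := by ext; simp; omega
  obtain ⟨r, hr⟩ := exists_isReduced (simple i * (simple j * (simple i * w)))
  have s1 : simple i j.succ = j.succ := by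
    apply simple_other' <;> simp only [Fin.val_succ] <;> omega
  have s2 : simple j i.castSucc = i.castSucc := by
    apply simple_other' <;> simp only [Fin.val_castSucc] <;> omega
  have k1 : simple j i.succ = j.succ := by rw [← eji, simple_left]
  have k2 : simple i j.castSucc = i.castSucc := by rw [eji, simple_right]
  have hj' : w⁻¹ j.succ < w⁻¹ i.succ := by rw [← eji]; exact hj
  have d1 : (simple i * w)⁻¹ j.succ < (simple i * w)⁻¹ j.castSucc := by
    rw [inv_simple_mul, inv_simple_mul, s1, k2]
    exact hj'.trans hi
  have d2 : (simple j * (simple i * w))⁻¹ i.succ < (simple j * (simple i * w))⁻¹ i.castSucc := by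
    rw [inv_simple_mul, inv_simple_mul, inv_simple_mul, inv_simple_mul, k1, s1, s2, simple_left]
    exact hj'
  have d3 : (simple j * w)⁻¹ i.succ < (simple j * w)⁻¹ i.castSucc := by
    rw [inv_simple_mul, inv_simple_mul, s2, k1]
    exact hj'.trans hi
  have d4 : (simple i * (simple j * w))⁻¹ j.succ < (simple i * (simple j * w))⁻¹ j.castSucc := by
    rw [inv_simple_mul, inv_simple_mul, inv_simple_mul, inv_simple_mul, s1, k2, simple_right, s2,
      eji]
    exact hi
  have e : simple i * (simple j * (simple i * w)) = simple j * (simple i * (simple j * w)) := by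
    rw [← mul_assoc, ← mul_assoc, simple_braid hij, mul_assoc, mul_assoc]
  have h1 : IsReduced (simple i * w) (j :: i :: r) := (hr.consMk d2).consMk d1
  have h2 : IsReduced (simple j * w) (i :: j :: r) := by
    rw [e] at hr
    exact (hr.consMk d4).consMk d3
  have l1 := len_left_dn hi
  have l2 := len_left_dn hj
  have e1 := ih _ (by omega) _ _ ht h1
  have e2 := ih _ (by omega) _ _ ht' h2
  rw [List.map_cons, List.map_cons, List.prod_cons, List.prod_cons, e1, e2]
  simp only [List.map_cons, List.prod_cons]
  rw [← mul_assoc, ← mul_assoc, hg]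
  simp only [mul_assoc]

/-- Matsumoto's theorem for the symmetric group. -/
theorem matsumoto (g : Fin n → M) (hb : ∀ i j : Fin n, (i : ℕ) + 1 = j →
      g i * g j * g i = g j * g i * g j)
    (hc : ∀ i j : Fin n, (i : ℕ) + 1 < j → g i * g j = g j * g i) :
    ∀ w : Perm (Fin (n + 1)), ∀ l l' : List (Fin n), IsReduced w l → IsReduced w l' →
      (l.map g).prod = (l'.map g).prod := by
  have key : ∀ k, ∀ w : Perm (Fin (n + 1)), len w < k → ∀ l l' : List (Fin n), IsReduced w l →
      IsReduced w l' → (l.map g).prod = (l'.map g).prod := by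
    intro k
    induction k with
    | zero => intro w hw; omega
    | succ k ih =>
      intro w hw l l' hl hl'
      have ih' : ∀ u : Perm (Fin (n + 1)), len u < len w → ∀ l l' : List (Fin n),
          IsReduced u l → IsReduced u l' → (l.map g).prod = (l'.map g).prod :=
        fun u hu => ih u (by omega)
      cases l with
      | nil =>
        have h0 : len w = 0 := by rw [← hl.2]; rfl
        have : l' = [] := List.length_eq_zero_iff.mp (by rw [hl'.2, h0])
        rw [this]
      | cons i t =>
        cases l' with
        | nil =>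
          have h0 : len w = 0 := by rw [← hl'.2]; rfl
          have := hl.2
          rw [h0] at this
          simp at this
        | cons j t' =>
          rcases lt_trichotomy i j with hij | hij | hij
          · rcases Nat.lt_or_ge ((i : ℕ) + 1) j with h1 | h1
            · exact mats_comm g h1 (hc _ _ h1) ih' hl hl'
            · have h2 : (i : ℕ) + 1 = j := by have : (i : ℕ) < j := hij; omega
              exact mats_braid g h2 (hb _ _ h2) ih' hl hl'
          · subst hij
            have h1 := hl.cons
            have h2 := hl'.cons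
            rw [List.map_cons, List.map_cons, List.prod_cons, List.prod_cons,
              ih' _ (by have := len_left_dn h1.2; omega) _ _ h1.1 h2.1]
          · rcases Nat.lt_or_ge ((j : ℕ) + 1) i with h1 | h1
            · exact (mats_comm g h1 (hc _ _ h1) ih' hl' hl).symm
            · have h2 : (j : ℕ) + 1 = i := by have : (j : ℕ) < i := hij; omega
              exact (mats_braid g h2 (hb _ _ h2) ih' hl' hl).symm
  intro w
  exact key _ w (Nat.lt_succ_self _)

end Matsumoto

end KLFin.Final
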